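import Pool.Agent.H32.QC.TargetsL

/-!
# Row LTAM: a nonsquare unit at an odd place
-/

set_option autoImplicit false

open NumberField IsDedekindDomain Pool.Agent.H32.QC

namespace Pool.Agent.H16.QCL

section

variable {K : Type} [NontriviallyNormedField K] [IsUltrametricDist K] [CompleteSpace K]
  [CharZero K]

theorem sq_of_close (hHEN : T_HEN) (h2 : ‖(2 : K)‖ = 1) (w : K) (hw : ‖w - 1‖ < 1) :
    IsSquare w := by
  by_cases hc : w - 1 = 0
  · rw [sub_eq_zero.1 hc]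
    exact ⟨1, by ring⟩
  · have h1 := hHEN K (w - 1) hc (by rw [h2]; exact hw)
    have hw0 : w ≠ 0 := by
      rintro rfl
      rw [zero_sub, norm_neg, norm_one] at hw
      exact lt_irrefl _ hw
    have hw1 : ‖w‖ = 1 := by
      have h3 : ‖(w - 1) + 1‖ = max ‖w - 1‖ ‖(1 : K)‖ :=
        IsUltrametricDist.norm_add_eq_max_of_norm_ne_norm (by rw [norm_one]; exact ne_of_lt hw)
      rw [sub_add_cancel, norm_one, max_eq_right hw.le] at h3
      exact h3
    have hmem : Units.mk0 w hw0 ∈ Un K (2 * (w - 1)) := by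
      refine ⟨?_, ?_⟩
      · show ‖w - 1‖ ≤ ‖2 * (w - 1)‖
        rw [norm_mul, h2, one_mul]
      · show ‖w‖ = 1
        exact hw1
    rw [← h1] at hmem
    obtain ⟨y, _, hy⟩ := Subgroup.mem_map.1 hmem
    refine ⟨(y : K), ?_⟩
    have h4 := congrArg (fun u : Kˣ => (u : K)) hy
    simp only [powMonoidHom_apply, Units.val_pow_eq_pow_val, Units.val_mk0] at h4
    rw [← h4, sq]

theorem norm_form (hHEN : T_HEN) (h2 : ‖(2 : K)‖ = 1) (u : K) (hu : ‖u‖ = 1)
    (hus : ¬ IsSquare u) (z x : K) :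
    ∃ m, (m = z ∨ m = x) ∧ ‖z ^ 2 - u * x ^ 2‖ = ‖m‖ ^ 2 ∧ ‖z‖ ≤ ‖m‖ ∧ ‖x‖ ≤ ‖m‖ := by
  have hux : ‖-(u * x ^ 2)‖ = ‖x‖ ^ 2 := by
    rw [norm_neg, norm_mul, hu, one_mul, norm_pow]
  have hz2 : ‖z ^ 2‖ = ‖z‖ ^ 2 := norm_pow z 2
  rw [sub_eq_add_neg]
  rcases lt_trichotomy ‖z‖ ‖x‖ with h | h | h
  · refine ⟨x, Or.inr rfl, ?_, h.le, le_rfl⟩
    have h3 : ‖z‖ ^ 2 < ‖x‖ ^ 2 := by
      have := norm_nonneg z
      nlinarith
    rw [IsUltrametricDist.norm_add_eq_max_of_norm_ne_norm (by rw [hux, hz2]; exact ne_of_lt h3),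
      hux, hz2, max_eq_right h3.le]
  · refine ⟨z, Or.inl rfl, ?_, le_rfl, h.ge⟩
    by_contra hne
    have hle : ‖z ^ 2 + -(u * x ^ 2)‖ ≤ ‖z‖ ^ 2 := by
      refine (IsUltrametricDist.norm_add_le_max _ _).trans ?_
      rw [hux, hz2, h, max_self]
    have hlt : ‖z ^ 2 + -(u * x ^ 2)‖ < ‖z‖ ^ 2 := lt_of_le_of_ne hle hne
    have hz0 : z ≠ 0 := by
      rintro rfl
      rw [norm_zero] at hlt
      have := norm_nonneg ((0 : K) ^ 2 + -(u * x ^ 2))
      nlinarith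
    have hx0 : x ≠ 0 := by
      rintro rfl
      rw [norm_zero, norm_eq_zero] at h
      exact hz0 h
    have hu0 : u ≠ 0 := by
      rintro rfl
      rw [norm_zero] at hu
      exact zero_ne_one hu
    have hw : ‖z ^ 2 / (u * x ^ 2) - 1‖ < 1 := by
      have h4 : z ^ 2 / (u * x ^ 2) - 1 = (z ^ 2 + -(u * x ^ 2)) / (u * x ^ 2) := by
        field_simp
        ring
      have h5 : ‖u * x ^ 2‖ = ‖z‖ ^ 2 := by rw [← norm_neg, hux, h]
      rw [h4, norm_div, h5, div_lt_one]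
      · exact hlt
      · have := norm_pos_iff.2 hz0
        positivity
    obtain ⟨r, hr⟩ := sq_of_close hHEN h2 _ hw
    apply hus
    have hr0 : r ≠ 0 := by
      rintro rfl
      rw [mul_zero, div_eq_zero_iff] at hr
      rcases hr with hr | hr
      · exact hz0 (pow_eq_zero_iff (two_ne_zero) |>.1 hr)
      · exact (mul_ne_zero hu0 (pow_ne_zero _ hx0)) hr
    refine ⟨z / (x * r), ?_⟩
    have h6 : z ^ 2 = r * r * (u * x ^ 2) := by
      rw [← hr]; field_simp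
    have h7 : z / (x * r) * (z / (x * r)) = z ^ 2 / (x * r) ^ 2 := by
      field_simp
    rw [h7, h6]
    field_simp
  · refine ⟨z, Or.inl rfl, ?_, le_rfl, h.le⟩
    have h3 : ‖x‖ ^ 2 < ‖z‖ ^ 2 := by
      have := norm_nonneg x
      nlinarith
    rw [IsUltrametricDist.norm_add_eq_max_of_norm_ne_norm (by rw [hux, hz2]; exact ne_of_gt h3),
      hux, hz2, max_eq_left h3.le]

end

theorem pf_TAM (hHEN : T_HEN) : T_TAM := by
  intro K _ _ _ _ h2 u b hu hus hb hbd hsol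
  obtain ⟨x, y, z, h0, h⟩ := hsol
  obtain ⟨m, hm, hn, hz, hx⟩ := norm_form hHEN h2 u hu hus z x
  have h1 : z ^ 2 - u * x ^ 2 = b * y ^ 2 := by rw [h]; ring
  rw [h1] at hn
  by_cases hy : y = 0
  · subst hy
    have hm0 : ‖m‖ = 0 := by
      have h3 : ‖m‖ ^ 2 = 0 := by rw [← hn]; simp
      exact pow_eq_zero_iff (two_ne_zero) |>.1 h3
    rw [hm0] at hz hx
    rcases h0 with h0 | h0 | h0
    · exact h0 (norm_le_zero_iff.1 hx)
    · exact h0 rfl
    · exact h0 (norm_le_zero_iff.1 hz)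
  · apply hbd (m / y)
    have hy' : ‖y‖ ≠ 0 := norm_ne_zero_iff.2 hy
    rw [norm_div, div_pow, ← hn, norm_mul, norm_pow]
    field_simp

end Pool.Agent.H16.QCL
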