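import Pool.Agent.H32.QC.TargetsL

/-!
# Row LQUI: forms in five variables
-/

set_option autoImplicit false

open NumberField IsDedekindDomain Pool.Agent.H32.QC

namespace Pool.Agent.H16.QCL

theorem qui_claim {L : Type} [Field L] (h2 : (2 : L) ≠ 0) (hNI : NI L) (hnsq : 2 < nsq L)
    (m p q : L) (hm : m ≠ 0) (hp : p ≠ 0) (hq : q ≠ 0) :
    ∃ y z : L, -(p * y ^ 2 + q * z ^ 2) ≠ 0 ∧ ¬ IsSquare (m * -(p * y ^ 2 + q * z ^ 2)) := by
  by_contra hcon
  push Not at hcon
  -- values of the norm form are squares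
  have hval : ∀ b Y Z : L, b ≠ 0 → b = Y ^ 2 + p * q * Z ^ 2 → IsSquare b := by
    intro b Y Z hb hbYZ
    have h1 : IsSquare (m * -(p * b)) := by
      have h3 : p * Y ^ 2 + q * (p * Z) ^ 2 = p * b := by rw [hbYZ]; ring
      have h4 := hcon Y (p * Z)
      rw [h3] at h4
      exact h4 (neg_ne_zero.2 (mul_ne_zero hp hb))
    have h4 : IsSquare (m * -p) := by
      have h3 : p * (1 : L) ^ 2 + q * 0 ^ 2 = p := by ring
      have h4 := hcon 1 0
      rw [h3] at h4
      exact h4 (neg_ne_zero.2 hp)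
    have h5 : b = (m * -(p * b)) / (m * -p) := by
      field_simp
    rw [h5]
    exact h1.div h4
  by_cases hd : IsSquare (-(p * q))
  · -- everything is a square
    obtain ⟨δ, hδ⟩ := hd
    have hδ0 : δ ≠ 0 := by
      rintro rfl
      rw [mul_zero] at hδ
      exact neg_ne_zero.2 (mul_ne_zero hp hq) hδ
    have hall : ∀ b : L, b ≠ 0 → IsSquare b := by
      intro b hb
      apply hval b ((b + 1) / 2) ((b - 1) / (2 * δ)) hb
      have h3 : p * q = -(δ * δ) := by rw [← hδ]; ring
      rw [h3]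
      field_simp
      ring
    have htop : (powMonoidHom 2 : Lˣ →* Lˣ).range = ⊤ := by
      rw [Subgroup.eq_top_iff']
      intro u
      obtain ⟨r, hr⟩ := hall (u : L) u.ne_zero
      have hr0 : r ≠ 0 := by
        rintro rfl
        rw [mul_zero] at hr
        exact u.ne_zero hr
      refine ⟨Units.mk0 r hr0, ?_⟩
      ext
      simp only [powMonoidHom_apply, Units.val_pow_eq_pow_val, Units.val_mk0]
      rw [hr, sq]
    have h3 : nsq L = 1 := by
      rw [nsq, htop, Subgroup.index_top]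
    omega
  · obtain ⟨N, hN, hNm⟩ := hNI (-(p * q)) (neg_ne_zero.2 (mul_ne_zero hp hq)) hd
    have hle : N ≤ (powMonoidHom 2 : Lˣ →* Lˣ).range := by
      intro u hu
      obtain ⟨x, y, z, h0, h⟩ := (hNm u).1 hu
      have hy : y ≠ 0 := by
        rintro rfl
        apply hd
        have hx : x ≠ 0 := by
          rintro rfl
          have hz : z = 0 := by
            have : z ^ 2 = 0 := by rw [h]; ring
            exact pow_eq_zero_iff (two_ne_zero) |>.1 this
          rcases h0 with h0 | h0 | h0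
          · exact h0 rfl
          · exact h0 rfl
          · exact h0 hz
        refine ⟨z / x, ?_⟩
        have h5 : z / x * (z / x) = z ^ 2 / x ^ 2 := by field_simp
        rw [h5, h]
        field_simp
        ring
      obtain ⟨r, hr⟩ := hval (u : L) (z / y) (x / y) u.ne_zero (by
        field_simp
        linear_combination -h)
      have hr0 : r ≠ 0 := by
        rintro rfl
        rw [mul_zero] at hr
        exact u.ne_zero hr
      refine ⟨Units.mk0 r hr0, ?_⟩
      ext
      simp only [powMonoidHom_apply, Units.val_pow_eq_pow_val, Units.val_mk0]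
      rw [hr, sq]
    have h3 : nsq L ∣ 2 := by
      rw [← hN]
      exact Subgroup.index_dvd_of_le hle
    have := Nat.le_of_dvd (by norm_num) h3
    omega

theorem pf_QUI (hTER : T_TER) : T_QUI := by
  intro L _ h2 hNI hnsq n a hn ha
  obtain ⟨k, rfl⟩ := Nat.exists_eq_add_of_le hn
  obtain ⟨b, hb⟩ : ∃ b : Fin 5 → L, ∀ i, b i = a (Fin.castAdd k i) := ⟨_, fun _ => rfl⟩
  have hb0 : ∀ i, b i ≠ 0 := fun i => by rw [hb]; exact ha _
  obtain ⟨y, z, he, hns⟩ := qui_claim h2 hNI hnsq (-(b 0 * b 1 * b 2)) (b 3) (b 4)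
    (neg_ne_zero.2 (mul_ne_zero (mul_ne_zero (hb0 0) (hb0 1)) (hb0 2))) (hb0 3) (hb0 4)
  obtain ⟨u, v, w, huvw⟩ := hTER L h2 hNI (b 0) (b 1) (b 2) (-(b 3 * y ^ 2 + b 4 * z ^ 2))
    (hb0 0) (hb0 1) (hb0 2) he (by
      have h3 : -(b 0 * b 1 * b 2 * -(b 3 * y ^ 2 + b 4 * z ^ 2)) =
          -(b 0 * b 1 * b 2) * -(b 3 * y ^ 2 + b 4 * z ^ 2) := by ring
      rw [h3]
      exact hns)
  refine ⟨Fin.append ![u, v, w, y, z] (fun _ => 0), ?_, ?_⟩
  · intro h0
    have h1 : ∀ i : Fin 5, (![u, v, w, y, z] : Fin 5 → L) i = 0 := by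
      intro i
      have h3 := congrFun h0 (Fin.castAdd k i)
      rw [Fin.append_left] at h3
      exact h3
    have h3 : y = 0 := h1 3
    have h4 : z = 0 := h1 4
    apply he
    rw [h3, h4]
    ring
  · rw [Fin.sum_univ_add]
    have h1 : ∀ i : Fin k, a (Fin.natAdd 5 i) *
        (Fin.append ![u, v, w, y, z] (fun _ => (0 : L)) (Fin.natAdd 5 i)) ^ 2 = 0 := by
      intro i
      rw [Fin.append_right]
      ring
    rw [Finset.sum_eq_zero (fun i _ => h1 i), add_zero]
    have h3 : ∀ i : Fin 5, a (Fin.castAdd k i) *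
        (Fin.append ![u, v, w, y, z] (fun _ => (0 : L)) (Fin.castAdd k i)) ^ 2 =
        b i * ((![u, v, w, y, z] : Fin 5 → L) i) ^ 2 := by
      intro i
      rw [Fin.append_left, hb]
    rw [Finset.sum_congr rfl (fun i _ => h3 i), Fin.sum_univ_five]
    show b 0 * u ^ 2 + b 1 * v ^ 2 + b 2 * w ^ 2 + b 3 * y ^ 2 + b 4 * z ^ 2 = 0
    linear_combination huvw

end Pool.Agent.H16.QCL
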